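import Mathlib

set_option autoImplicit false

namespace Pool.Agent.Results.MP_0c03d4_ag.Yes

open Matrix

/-- The vector `x` lies on the component `c`: `(false, i)` is the line `l i ⬝ᵥ x = 0` and
`(true, i)` is the conic `x ⬝ᵥ A i x = 0`. -/
def On {R : Type} [CommRing R] (l : Fin 4 → Fin 3 → R) (A : Fin 4 → Matrix (Fin 3) (Fin 3) R)
    (c : Bool × Fin 4) (x : Fin 3 → R) : Prop :=
  if c.1 = true then x ⬝ᵥ (A c.2 *ᵥ x) = 0 else l c.2 ⬝ᵥ x = 0

/-- The coefficients of the tangent line at `x` of the component `c`. -/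
def tangent {R : Type} [CommRing R] (l : Fin 4 → Fin 3 → R)
    (A : Fin 4 → Matrix (Fin 3) (Fin 3) R) (c : Bool × Fin 4) (x : Fin 3 → R) : Fin 3 → R :=
  if c.1 = true then A c.2 *ᵥ x else l c.2

/-- The indices of the lines through each of the nine quadruple points of `W`; the conics
through the point are those with the other indices. -/
def W : Fin 9 → Finset (Fin 4) := ![{2, 3}, ∅, ∅, ∅, {0, 1}, {1, 2}, {1, 3}, {0, 2}, {0, 3}]

/-- The four lines `l` and the four conics `A` form a curve of weak combinatorial type `W`,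
with quadruple points `P` and tangency points `T`. -/
structure Realizes (l : Fin 4 → Fin 3 → ℂ) (A : Fin 4 → Matrix (Fin 3) (Fin 3) ℂ)
    (P : Fin 9 → Fin 3 → ℂ) (T : Fin 4 → Fin 3 → ℂ) : Prop where
  line_ne : ∀ i, l i ≠ 0
  conic_symm : ∀ i, (A i)ᵀ = A i
  conic_smooth : ∀ i, (A i).det ≠ 0
  quad_distinct : ∀ k k', k ≠ k' → LinearIndependent ℂ ![P k, P k']
  quad_on_line : ∀ k i, On l A (false, i) (P k) ↔ i ∈ W k
  quad_on_conic : ∀ k i, On l A (true, i) (P k) ↔ i ∉ W k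
  quad_transversal : ∀ k c c', c ≠ c' → On l A c (P k) → On l A c' (P k) →
    LinearIndependent ℂ ![tangent l A c (P k), tangent l A c' (P k)]
  tac_ne : ∀ i, T i ≠ 0
  tac_on : ∀ i c, On l A c (T i) ↔ c.2 = i
  tac_tangent : ∀ i, ∃ a : ℂ, tangent l A (true, i) (T i) = a • l i
  tac_unique : ∀ i x, On l A (false, i) x → On l A (true, i) x → ∃ a : ℂ, x = a • T i
  no_other : ∀ x c c', c ≠ c' → On l A c x → On l A c' x →
    (∃ k, ∃ a : ℂ, x = a • P k) ∨ (∃ i, ∃ a : ℂ, x = a • T i)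

abbrev G := GaussianInt

def g (a b : ℤ) : G := ⟨a, b⟩

def l0 : Fin 4 → Fin 3 → G := ![![1, 0, 0], ![0, 1, 0], ![0, 0, 1], ![1, 1, 1]]

def A0 : Fin 4 → Matrix (Fin 3) (Fin 3) G :=
  ![!![0, -1, -1; -1, -2, 2; -1, 2, -2],
    !![g 0 (-4), g 0 (-2), g 2 2; g 0 (-2), 0, -1; g 2 2, -1, -2],
    !![g 0 4, g 2 (-2), g 0 2; g 2 (-2), -2, -1; g 0 2, -1, 0],
    !![0, g (-3) 4, g (-3) (-4); g (-3) 4, 0, 4; g (-3) (-4), 4, 0]]

def P0 : Fin 9 → Fin 3 → G :=
  ![![1, -1, 0], ![1, g 2 1, g 2 (-1)], ![g 2 4, g 5 (-5), g 3 1], ![g 2 (-4), g 3 (-1), g 5 5],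
    ![0, 0, 1], ![1, 0, 0], ![1, 0, -1], ![0, 1, 0], ![0, 1, -1]]

def T0 : Fin 4 → Fin 3 → G :=
  ![![0, 1, 1], ![1, 0, g 1 1], ![1, g 1 (-1), 0], ![2, g (-1) 2, g (-1) (-2)]]

instance (c : Bool × Fin 4) (x : Fin 3 → G) : Decidable (On l0 A0 c x) := by
  unfold On; infer_instance

def Ind (u v : Fin 3 → G) : Prop :=
  u 0 * v 1 - u 1 * v 0 ≠ 0 ∨ u 0 * v 2 - u 2 * v 0 ≠ 0 ∨ u 1 * v 2 - u 2 * v 1 ≠ 0

instance (u v : Fin 3 → G) : Decidable (Ind u v) := by unfold Ind; infer_instance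

noncomputable abbrev φ : G →+* ℂ := GaussianInt.toComplex

theorem φ_zero {z : G} : φ z = 0 ↔ z = 0 := GaussianInt.toComplex_eq_zero

theorem φ_g (a b : ℤ) : φ (g a b) = a + b * Complex.I := GaussianInt.toComplex_def' a b

noncomputable def l1 : Fin 4 → Fin 3 → ℂ := fun i => φ ∘ l0 i
noncomputable def A1 : Fin 4 → Matrix (Fin 3) (Fin 3) ℂ := fun i => (A0 i).map φ
noncomputable def P1 : Fin 9 → Fin 3 → ℂ := fun i => φ ∘ P0 i
noncomputable def T1 : Fin 4 → Fin 3 → ℂ := fun i => φ ∘ T0 i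

theorem mv (M : Matrix (Fin 3) (Fin 3) G) (x : Fin 3 → G) :
    (M.map φ) *ᵥ (φ ∘ x) = φ ∘ (M *ᵥ x) := by
  funext i
  exact (RingHom.map_mulVec φ M x i).symm

theorem on_iff (c : Bool × Fin 4) (x : Fin 3 → G) : On l1 A1 c (φ ∘ x) ↔ On l0 A0 c x := by
  unfold On l1 A1
  split_ifs
  · rw [mv, ← RingHom.map_dotProduct, φ_zero]
  · rw [← RingHom.map_dotProduct, φ_zero]

theorem tan_eq (c : Bool × Fin 4) (x : Fin 3 → G) :
    tangent l1 A1 c (φ ∘ x) = φ ∘ tangent l0 A0 c x := by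
  unfold tangent l1 A1
  split_ifs
  · rw [mv]
  · rfl

theorem ind {u v : Fin 3 → G} (h : Ind u v) : LinearIndependent ℂ ![φ ∘ u, φ ∘ v] := by
  rw [LinearIndependent.pair_iff]
  intro s t hst
  have h0 := congrFun hst 0
  have h1 := congrFun hst 1
  have h2 := congrFun hst 2
  simp only [Pi.add_apply, Pi.smul_apply, smul_eq_mul, Function.comp, Pi.zero_apply] at h0 h1 h2
  have key : ∀ i j : Fin 3, s * φ (u i) + t * φ (v i) = 0 → s * φ (u j) + t * φ (v j) = 0 →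
      u i * v j - u j * v i ≠ 0 → s = 0 ∧ t = 0 := by
    intro i j hi hj hne
    have hd : φ (u i) * φ (v j) - φ (u j) * φ (v i) ≠ 0 := by
      intro hh
      apply hne
      rw [← φ_zero, map_sub, map_mul, map_mul]
      exact hh
    constructor
    · apply mul_right_cancel₀ hd
      linear_combination φ (v j) * hi - φ (v i) * hj
    · apply mul_right_cancel₀ hd
      linear_combination φ (u i) * hj - φ (u j) * hi
  rcases h with h | h | h
  · exact key 0 1 h0 h1 h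
  · exact key 0 2 h0 h2 h
  · exact key 1 2 h1 h2 h

theorem ne0 {u : Fin 3 → G} (h : u ≠ 0) : (φ ∘ u) ≠ 0 := by
  intro hh
  apply h
  funext i
  exact φ_zero.1 (congrFun hh i)

theorem onL (x : Fin 3 → ℂ) :
    (On l1 A1 (false, 0) x ↔ x 0 = 0) ∧ (On l1 A1 (false, 1) x ↔ x 1 = 0) ∧
    (On l1 A1 (false, 2) x ↔ x 2 = 0) ∧ (On l1 A1 (false, 3) x ↔ x 0 + x 1 + x 2 = 0) := by
  simp [On, l1, l0, dotProduct, Fin.sum_univ_three]

noncomputable def C0 (x y z : ℂ) : ℂ := -(x + y + z) * (y + z) + 4 * y * z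
noncomputable def C1 (x y z : ℂ) : ℂ :=
  -(x + y + z) * (z + 2 * Complex.I * x) + (3 + 4 * Complex.I) * x * z
noncomputable def C2 (x y z : ℂ) : ℂ :=
  -(x + y + z) * (y - 2 * Complex.I * x) + (3 - 4 * Complex.I) * x * y
noncomputable def C3 (x y z : ℂ) : ℂ :=
  4 * y * z - (3 + 4 * Complex.I) * x * z + (-3 + 4 * Complex.I) * x * y

theorem onC (x : Fin 3 → ℂ) :
    (On l1 A1 (true, 0) x → C0 (x 0) (x 1) (x 2) = 0) ∧
    (On l1 A1 (true, 1) x → C1 (x 0) (x 1) (x 2) = 0) ∧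
    (On l1 A1 (true, 2) x → C2 (x 0) (x 1) (x 2) = 0) ∧
    (On l1 A1 (true, 3) x → C3 (x 0) (x 1) (x 2) = 0) := by
  refine ⟨?_, ?_, ?_, ?_⟩ <;> intro h <;>
    simp [On, A1, A0, dotProduct, Matrix.mulVec, Fin.sum_univ_three, φ_g, map_ofNat] at h <;>
    simp only [C0, C1, C2, C3] <;> linear_combination (1 / 2 : ℂ) * h

theorem vec_eq (x : Fin 3 → ℂ) (a : ℂ) (v : Fin 3 → ℂ) (h0 : x 0 = a * v 0) (h1 : x 1 = a * v 1)
    (h2 : x 2 = a * v 2) : x = a • v := by
  funext i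
  fin_cases i
  · exact h0
  · exact h1
  · exact h2

theorem tac (i : Fin 4) (x : Fin 3 → ℂ) (hl : On l1 A1 (false, i) x) (hc : On l1 A1 (true, i) x) :
    ∃ a : ℂ, x = a • T1 i := by
  have hI := Complex.I_sq
  obtain ⟨a0, a1, a2, a3⟩ := onL x
  obtain ⟨b0, b1, b2, b3⟩ := onC x
  fin_cases i
  · have h := a0.1 hl
    have h' := b0 hc
    simp only [C0, h] at h'
    have e : x 1 - x 2 = 0 := pow_eq_zero_iff (two_ne_zero) |>.1 (by linear_combination -h')
    refine ⟨x 1, vec_eq _ _ _ ?_ ?_ ?_⟩ <;> simp [T1, T0, h]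
    linear_combination -e
  · have h := a1.1 hl
    have h' := b1 hc
    simp only [C1, h] at h'
    have e : x 2 - (1 + Complex.I) * x 0 = 0 :=
      pow_eq_zero_iff (two_ne_zero) |>.1 (by linear_combination -h' + (x 0) ^ 2 * hI)
    refine ⟨x 0, vec_eq _ _ _ ?_ ?_ ?_⟩ <;> simp [T1, T0, φ_g, h]
    linear_combination e
  · have h := a2.1 hl
    have h' := b2 hc
    simp only [C2, h] at h'
    have e : x 1 - (1 - Complex.I) * x 0 = 0 :=
      pow_eq_zero_iff (two_ne_zero) |>.1 (by linear_combination -h' + (x 0) ^ 2 * hI)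
    refine ⟨x 0, vec_eq _ _ _ ?_ ?_ ?_⟩ <;> simp [T1, T0, φ_g, h]
    linear_combination e
  · have h := a3.1 hl
    have h' := b3 hc
    have hz : x 2 = -x 0 - x 1 := by linear_combination h
    simp only [C3, hz] at h'
    have e : 2 * x 1 - (-1 + 2 * Complex.I) * x 0 = 0 :=
      pow_eq_zero_iff (two_ne_zero) |>.1 (by linear_combination -h' + 4 * (x 0) ^ 2 * hI)
    refine ⟨x 0 / 2, vec_eq _ _ _ ?_ ?_ ?_⟩ <;> simp [T1, T0, φ_g, hz, map_ofNat]
    · linear_combination (1 / 2 : ℂ) * e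
    · linear_combination (-1 / 2 : ℂ) * e

theorem pt (x y z px py pz : ℂ) (hy : y ≠ 0) (hpy : py ≠ 0) (hs : py + pz ≠ 0)
    (hp : px * (py + pz) = -(py - pz) ^ 2) (h1 : pz * y = py * z) (h2 : C0 x y z = 0) :
    ∃ a : ℂ, x = a * px ∧ y = a * py ∧ z = a * pz := by
  have ey : y = y / py * py := by field_simp
  have ez : z = y / py * pz := by
    field_simp
    linear_combination -h1
  have ha : y / py ≠ 0 := div_ne_zero hy hpy
  generalize y / py = a at ey ez ha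
  refine ⟨a, ?_, ey, ez⟩
  subst ey ez
  simp only [C0] at h2
  apply mul_right_cancel₀ (mul_ne_zero ha hs)
  linear_combination -h2 - a ^ 2 * hp

theorem base (x : Fin 3 → ℂ) (h0 : x 0 * C0 (x 0) (x 1) (x 2) = 0)
    (h1 : x 1 * C1 (x 0) (x 1) (x 2) = 0) : ∃ k, ∃ a : ℂ, x = a • P1 k := by
  have hI := Complex.I_sq
  by_cases hx : x 0 = 0
  · simp only [C1, hx] at h1
    have : x 1 * (x 2 * (x 1 + x 2)) = 0 := by linear_combination -h1
    rcases mul_eq_zero.1 this with h | h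
    · refine ⟨4, x 2, vec_eq _ _ _ ?_ ?_ ?_⟩ <;> simp [P1, P0, hx, h]
    rcases mul_eq_zero.1 h with h | h
    · refine ⟨7, x 1, vec_eq _ _ _ ?_ ?_ ?_⟩ <;> simp [P1, P0, hx, h]
    · refine ⟨8, x 1, vec_eq _ _ _ ?_ ?_ ?_⟩ <;> simp [P1, P0, hx]
      linear_combination h
  have c0 := (mul_eq_zero.1 h0).resolve_left hx
  by_cases hy : x 1 = 0
  · simp only [C0, hy] at c0
    have : x 2 * (x 0 + x 2) = 0 := by linear_combination -c0
    rcases mul_eq_zero.1 this with h | h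
    · refine ⟨5, x 0, vec_eq _ _ _ ?_ ?_ ?_⟩ <;> simp [P1, P0, hy, h]
    · refine ⟨6, x 0, vec_eq _ _ _ ?_ ?_ ?_⟩ <;> simp [P1, P0, hy]
      linear_combination h
  have c1 := (mul_eq_zero.1 h1).resolve_left hy
  have hX : x 0 * (x 1 + x 2) = -(x 1 - x 2) ^ 2 := by
    simp only [C0] at c0
    linear_combination -c0
  have hq : -2 * Complex.I * (-(x 1 - x 2) ^ 2) ^ 2 - (x 2) ^ 2 * (x 1 + x 2) ^ 2
      - 2 * Complex.I * x 1 * (-(x 1 - x 2) ^ 2) * (x 1 + x 2)
      + (2 + 2 * Complex.I) * x 2 * (-(x 1 - x 2) ^ 2) * (x 1 + x 2)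
      - x 1 * x 2 * (x 1 + x 2) ^ 2 = 0 := by
    rw [← hX]
    simp only [C1] at c1
    linear_combination (x 1 + x 2) ^ 2 * c1
  have hf : x 2 * (((2 - Complex.I) * x 1 - (2 + Complex.I) * x 2) *
      (((3 + Complex.I) * x 1 - (5 - 5 * Complex.I) * x 2) *
      ((5 + 5 * Complex.I) * x 1 - (3 - Complex.I) * x 2))) = 0 := by
    linear_combination (-10 * Complex.I) * hq + ((-5) * Complex.I ^ 1 * (x 1) ^ 3 * (x 2) ^ 1 + (-31) * Complex.I ^ 1 * (x 1) ^ 2 * (x 2) ^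
      2 + (-31) * Complex.I ^ 1 * (x 1) ^ 1 * (x 2) ^ 3 + (-5) * Complex.I ^ 1 * (x 1) ^ 0 * (x
      2) ^ 4 + (30) * Complex.I ^ 0 * (x 1) ^ 3 * (x 2) ^ 1 + (-98) * Complex.I ^ 0 * (x 1) ^ 2
      * (x 2) ^ 2 + (98) * Complex.I ^ 0 * (x 1) ^ 1 * (x 2) ^ 3 + (-30) * Complex.I ^ 0 * (x 1)
      ^ 0 * (x 2) ^ 4) * hI
  rcases mul_eq_zero.1 hf with h | h
  · refine ⟨0, x 0, vec_eq _ _ _ ?_ ?_ ?_⟩ <;> simp [P1, P0, h]
    rw [h] at hX
    apply mul_right_cancel₀ hy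
    linear_combination hX
  rcases mul_eq_zero.1 h with h | h
  · obtain ⟨a, e0, e1, e2⟩ := pt (x 0) (x 1) (x 2) 1 (2 + Complex.I) (2 - Complex.I) hy
      (by simp [Complex.ext_iff]) (by simp)
      (by linear_combination 4 * hI) (by linear_combination h) c0
    refine ⟨1, a, vec_eq _ _ _ ?_ ?_ ?_⟩ <;> simp [P1, P0, φ_g]
    · linear_combination e0
    · linear_combination e1
    · linear_combination e2
  rcases mul_eq_zero.1 h with h | h
  · obtain ⟨a, e0, e1, e2⟩ := pt (x 0) (x 1) (x 2) (2 + 4 * Complex.I) (5 - 5 * Complex.I)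
      (3 + Complex.I) hy
      (by simp [Complex.ext_iff]) (by simp [Complex.ext_iff]; norm_num)
      (by linear_combination 20 * hI) (by linear_combination h) c0
    refine ⟨2, a, vec_eq _ _ _ ?_ ?_ ?_⟩ <;> simp [P1, P0, φ_g]
    · linear_combination e0
    · linear_combination e1
    · linear_combination e2
  · obtain ⟨a, e0, e1, e2⟩ := pt (x 0) (x 1) (x 2) (2 - 4 * Complex.I) (3 - Complex.I)
      (5 + 5 * Complex.I) hy
      (by simp [Complex.ext_iff]) (by simp [Complex.ext_iff]; norm_num)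
      (by linear_combination 20 * hI) (by linear_combination h) c0
    refine ⟨3, a, vec_eq _ _ _ ?_ ?_ ?_⟩ <;> simp [P1, P0, φ_g]
    · linear_combination e0
    · linear_combination e1
    · linear_combination e2

/-- Coefficients of the four members of the pencil in terms of the first two. -/
noncomputable def al : Fin 4 → ℂ := ![1, 0, -2 * Complex.I, -(3 + 4 * Complex.I)]
noncomputable def be : Fin 4 → ℂ := ![0, 1, 1, 4]

theorem member (c : Bool × Fin 4) (x : Fin 3 → ℂ) (h : On l1 A1 c x) :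
    al c.2 * (x 0 * C0 (x 0) (x 1) (x 2)) + be c.2 * (x 1 * C1 (x 0) (x 1) (x 2)) = 0 := by
  obtain ⟨a0, a1, a2, a3⟩ := onL x
  obtain ⟨b0, b1, b2, b3⟩ := onC x
  have r2 : -2 * Complex.I * (x 0 * C0 (x 0) (x 1) (x 2)) + 1 * (x 1 * C1 (x 0) (x 1) (x 2))
      = x 2 * C2 (x 0) (x 1) (x 2) := by
    simp only [C0, C1, C2]; ring
  have r3 : -(3 + 4 * Complex.I) * (x 0 * C0 (x 0) (x 1) (x 2)) + 4 * (x 1 * C1 (x 0) (x 1) (x 2))
      = -(x 0 + x 1 + x 2) * C3 (x 0) (x 1) (x 2) := by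
    simp only [C0, C1, C3]; ring
  obtain ⟨b, i⟩ := c
  cases b <;> fin_cases i
  · simp [al, be, a0.1 h]
  · simp [al, be, a1.1 h]
  · exact r2.trans (by rw [a2.1 h, zero_mul])
  · exact r3.trans (by rw [a3.1 h]; simp)
  · simp [al, be, b0 h]
  · simp [al, be, b1 h]
  · exact r2.trans (by rw [b2 h, mul_zero])
  · exact r3.trans (by rw [b3 h, mul_zero])

theorem albe (i j : Fin 4) (h : i ≠ j) : al i * be j - al j * be i ≠ 0 := by
  fin_cases i <;> fin_cases j <;> first | exact absurd rfl h | simp [al, be, Complex.ext_iff]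

theorem result : ∃ (l : Fin 4 → Fin 3 → ℂ) (A : Fin 4 → Matrix (Fin 3) (Fin 3) ℂ)
    (P : Fin 9 → Fin 3 → ℂ) (T : Fin 4 → Fin 3 → ℂ), Realizes l A P T := by
  refine ⟨l1, A1, P1, T1, ?_, ?_, ?_, ?_, ?_, ?_, ?_, ?_, ?_, ?_, tac, ?_⟩
  · intro i
    exact ne0 ((by decide +kernel : ∀ i, l0 i ≠ 0) i)
  · intro i
    have : (A0 i)ᵀ = A0 i := (by decide +kernel : ∀ i, (A0 i)ᵀ = A0 i) i
    simp only [A1]
    rw [← Matrix.transpose_map, this]
  · intro i
    have : (A0 i).det ≠ 0 := by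
      rw [Matrix.det_fin_three]
      revert i
      decide +kernel
    intro h
    apply this
    rw [← φ_zero, RingHom.map_det]
    exact h
  · intro k k' h
    exact ind ((by decide +kernel : ∀ k k', k ≠ k' → Ind (P0 k) (P0 k')) k k' h)
  · intro k i
    exact (on_iff _ _).trans
      ((by decide +kernel : ∀ k i, On l0 A0 (false, i) (P0 k) ↔ i ∈ W k) k i)
  · intro k i
    exact (on_iff _ _).trans
      ((by decide +kernel : ∀ k i, On l0 A0 (true, i) (P0 k) ↔ i ∉ W k) k i)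
  · intro k c c' h h1 h2
    simp only [P1] at h1 h2 ⊢
    rw [on_iff] at h1 h2
    rw [tan_eq, tan_eq]
    exact ind ((by decide +kernel : ∀ k c c', c ≠ c' → On l0 A0 c (P0 k) → On l0 A0 c' (P0 k) →
      Ind (tangent l0 A0 c (P0 k)) (tangent l0 A0 c' (P0 k))) k c c' h h1 h2)
  · intro i
    exact ne0 ((by decide +kernel : ∀ i, T0 i ≠ 0) i)
  · intro i c
    exact (on_iff _ _).trans ((by decide +kernel : ∀ i c, On l0 A0 c (T0 i) ↔ c.2 = i) i c)
  · intro i
    have : ∀ i, tangent l0 A0 (true, i) (T0 i) = (tangent l0 A0 (true, i) (T0 i) ⬝ᵥ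
        ![![1, 0, 0], ![0, 1, 0], ![0, 0, 1], ![1, 0, 0]] i) • l0 i := by decide +kernel
    refine ⟨φ (tangent l0 A0 (true, i) (T0 i) ⬝ᵥ
        ![![1, 0, 0], ![0, 1, 0], ![0, 0, 1], ![1, 0, 0]] i), ?_⟩
    simp only [T1, l1]
    rw [tan_eq]
    funext j
    have := congrFun (this i) j
    simp only [Function.comp, Pi.smul_apply, smul_eq_mul] at this ⊢
    rw [this, map_mul]
  · intro x c c' h h1 h2
    by_cases e : c.2 = c'.2
    · right
      obtain ⟨b, i⟩ := c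
      obtain ⟨b', i'⟩ := c'
      simp only at e
      subst e
      cases b <;> cases b'
      · exact absurd rfl h
      · exact ⟨i, tac i x h1 h2⟩
      · exact ⟨i, tac i x h2 h1⟩
      · exact absurd rfl h
    · left
      have m1 := member c x h1
      have m2 := member c' x h2
      have d := albe _ _ e
      apply base x
      · apply mul_left_cancel₀ d
        linear_combination be c'.2 * m1 - be c.2 * m2
      · apply mul_left_cancel₀ d
        linear_combination al c.2 * m2 - al c'.2 * m1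

end Pool.Agent.Results.MP_0c03d4_ag.Yes
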